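import Mathlib

set_option autoImplicit false

/-!
# Tree automata whose distributional map has a continuum of fixed points
-/

namespace Pool.Agent.Results.MP_09543b_pr.ContinuumOfFixedPoints

open Finset

/-- A tree automaton with state set `S`: it sends the vector of the numbers of children in the
various states to the state of the parent. -/
abbrev Automaton (S : Type) : Type := (S → ℕ) → S

/-- `χ` is a probability distribution on `{0, 1, 2, …}` giving positive mass to `{2, 3, …}`. -/
structure IsChildDistribution (χ : ℕ → ℝ) : Prop where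
  nonneg : ∀ m, 0 ≤ χ m
  hasSum_one : HasSum χ 1
  branching : ∃ m, 2 ≤ m ∧ 0 < χ m

/-- The automaton distributional map
`Ψ(x)_σ = ∑_m χ(m) ∑_{n : ∑ n_τ = m, A(n) = σ} (m! / ∏ n_τ!) ∏ x_τ ^ n_τ`. -/
noncomputable def distMap {S : Type} [Fintype S] [DecidableEq S] (A : Automaton S) (χ : ℕ → ℝ)
    (x : S → ℝ) : S → ℝ := fun σ =>
  ∑' m : ℕ, χ m * ∑ n ∈ (univ.piAntidiag m).filter (fun n : S → ℕ => A n = σ),
    (Nat.multinomial univ n : ℝ) * ∏ τ, x τ ^ n τ

/-- The fixed points of the distributional map in the simplex of probability vectors. -/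
def fixedPoints {S : Type} [Fintype S] [DecidableEq S] (A : Automaton S) (χ : ℕ → ℝ) :
    Set (S → ℝ) := {x | x ∈ stdSimplex ℝ S ∧ distMap A χ x = x}

section
variable {S : Type} [Fintype S] [DecidableEq S]

/-- the counts in which the state `σ` occurs once and all other states except `s` do not occur -/
def Sole (s σ : S) (n : S → ℕ) : Prop := σ ≠ s ∧ n σ = 1 ∧ ∀ τ, τ ≠ σ → τ ≠ s → n τ = 0

open Classical in
/-- the automaton -/
noncomputable def aut (s : S) : Automaton S := fun n =>
  if h : ∃ σ, Sole s σ n then h.choose else s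

lemma Sole.unique {s σ σ' : S} {n : S → ℕ} (h : Sole s σ n) (h' : Sole s σ' n) : σ = σ' := by
  by_contra hne
  have := h'.2.2 σ hne h.1
  have := h.2.1
  omega

lemma aut_eq_iff {s σ : S} (hσ : σ ≠ s) (n : S → ℕ) : aut s n = σ ↔ Sole s σ n := by
  unfold aut
  constructor
  · intro h
    by_cases hex : ∃ σ, Sole s σ n
    · rw [dif_pos hex] at h
      rw [← h]
      exact hex.choose_spec
    · rw [dif_neg hex] at h
      exact absurd h.symm hσ
  · intro h
    have hex : ∃ σ, Sole s σ n := ⟨σ, h⟩
    rw [dif_pos hex]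
    exact hex.choose_spec.unique h

/-- the count with one `σ` and `k` times `s` -/
def cnt (s σ : S) (k : ℕ) : S → ℕ := fun τ => if τ = σ then 1 else if τ = s then k else 0

lemma sum_cnt {s σ : S} (hσ : σ ≠ s) (k : ℕ) : ∑ τ, cnt s σ k τ = k + 1 := by
  have : ∀ τ, cnt s σ k τ = (if τ = σ then 1 else 0) + (if τ = s then k else 0) := by
    intro τ
    unfold cnt
    by_cases h1 : τ = σ
    · have : τ ≠ s := fun h => hσ (h1 ▸ h)
      simp [h1, hσ]
    · simp [h1]
  simp only [this, sum_add_distrib, sum_ite_eq', mem_univ, if_true]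
  omega

lemma prod_cnt {M : Type*} [CommMonoid M] {s σ : S} (hσ : σ ≠ s) (k : ℕ) (f : S → ℕ → M)
    (h0 : ∀ τ, f τ 0 = 1) : ∏ τ, f τ (cnt s σ k τ) = f σ 1 * f s k := by
  have : ∀ τ, f τ (cnt s σ k τ) =
      (if τ = σ then f σ 1 else 1) * (if τ = s then f s k else 1) := by
    intro τ
    unfold cnt
    by_cases h1 : τ = σ
    · subst h1
      simp [hσ]
    · by_cases h2 : τ = s
      · subst h2
        simp [h1]
      · simp [h1, h2, h0]
  simp only [this, prod_mul_distrib, prod_ite_eq', mem_univ, if_true]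

lemma multinomial_cnt {s σ : S} (hσ : σ ≠ s) (k : ℕ) :
    Nat.multinomial univ (cnt s σ k) = k + 1 := by
  have h := Nat.multinomial_spec (univ : Finset S) (cnt s σ k)
  rw [sum_cnt hσ, prod_cnt hσ k (fun _ m => m.factorial) (fun _ => rfl)] at h
  simp only [Nat.factorial_one, one_mul] at h
  rw [Nat.factorial_succ, mul_comm (k + 1)] at h
  exact Nat.eq_of_mul_eq_mul_left (Nat.factorial_pos k) h

lemma filter_succ {s σ : S} (hσ : σ ≠ s) (k : ℕ) :
    ((univ : Finset S).piAntidiag (k + 1)).filter (fun n : S → ℕ => aut s n = σ) =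
      {cnt s σ k} := by
  ext n
  simp only [mem_filter, mem_piAntidiag, mem_univ, implies_true, and_true, mem_singleton]
  rw [aut_eq_iff hσ]
  constructor
  · rintro ⟨h1, h2, h3, h4⟩
    have hs : n s = k := by
      have : ∑ τ, n τ = n σ + n s := by
        have e : ∀ τ, n τ = (if τ = σ then n σ else 0) + (if τ = s then n s else 0) := by
          intro τ
          by_cases a : τ = σ
          · subst a
            simp [hσ]
          · by_cases b : τ = s
            · subst b
              simp [a]
            · simp [a, b, h4 τ a b]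
        calc ∑ τ, n τ = ∑ τ, ((if τ = σ then n σ else 0) + (if τ = s then n s else 0)) :=
              sum_congr rfl fun τ _ => e τ
          _ = n σ + n s := by
              simp only [sum_add_distrib, sum_ite_eq', mem_univ, if_true]
      change ∑ τ, n τ = k + 1 at h1
      omega
    funext τ
    unfold cnt
    by_cases a : τ = σ
    · subst a
      simp [h3]
    · by_cases b : τ = s
      · subst b
        simp [a, hs]
      · simp [a, b, h4 τ a b]
  · rintro rfl
    refine ⟨sum_cnt hσ k, hσ, by simp [cnt], fun τ a b => by simp [cnt, a, b]⟩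

lemma filter_zero {s σ : S} (hσ : σ ≠ s) :
    ((univ : Finset S).piAntidiag 0).filter (fun n : S → ℕ => aut s n = σ) = ∅ := by
  ext n
  simp only [mem_filter, mem_piAntidiag, mem_univ, implies_true, and_true, notMem_empty,
    iff_false, not_and]
  rw [aut_eq_iff hσ]
  rintro h1 ⟨h2, h3, h4⟩
  change ∑ τ, n τ = 0 at h1
  rw [sum_eq_zero_iff] at h1
  have := h1 σ (mem_univ _)
  omega

lemma inner_of_ne {s σ : S} (hσ : σ ≠ s) (x : S → ℝ) (m : ℕ) :
    ∑ n ∈ ((univ : Finset S).piAntidiag m).filter (fun n : S → ℕ => aut s n = σ),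
      (Nat.multinomial univ n : ℝ) * ∏ τ, x τ ^ n τ = x σ * (m * x s ^ (m - 1)) := by
  cases m with
  | zero => rw [filter_zero hσ]; simp
  | succ k =>
    rw [filter_succ hσ, sum_singleton, multinomial_cnt hσ,
      prod_cnt hσ k (fun τ m => x τ ^ m) (fun τ => pow_zero _)]
    simp only [pow_one, Nat.add_sub_cancel]
    push_cast
    ring

/-- the derivative of the generating function of `χ` -/
noncomputable def gen (χ : ℕ → ℝ) (t : ℝ) : ℝ := ∑' m : ℕ, χ m * (m * t ^ (m - 1))

lemma distMap_of_ne {s σ : S} (hσ : σ ≠ s) (χ : ℕ → ℝ) (x : S → ℝ) :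
    distMap (aut s) χ x σ = x σ * gen χ (x s) := by
  unfold distMap gen
  rw [← tsum_mul_left]
  refine tsum_congr fun m => ?_
  rw [inner_of_ne hσ]
  ring

/-- the inner sums of the distributional map add up to `1` on probability vectors -/
lemma inner_sum (A : Automaton S) {x : S → ℝ} (hx : x ∈ stdSimplex ℝ S) (m : ℕ) :
    ∑ σ, ∑ n ∈ ((univ : Finset S).piAntidiag m).filter (fun n : S → ℕ => A n = σ),
      (Nat.multinomial univ n : ℝ) * ∏ τ, x τ ^ n τ = 1 := by
  rw [sum_fiberwise, ← sum_pow_eq_sum_piAntidiag, hx.2, one_pow]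

lemma inner_nonneg (A : Automaton S) {x : S → ℝ} (hx : x ∈ stdSimplex ℝ S) (m : ℕ) (σ : S) :
    0 ≤ ∑ n ∈ ((univ : Finset S).piAntidiag m).filter (fun n : S → ℕ => A n = σ),
      (Nat.multinomial univ n : ℝ) * ∏ τ, x τ ^ n τ :=
  sum_nonneg fun n _ => mul_nonneg (Nat.cast_nonneg _) (prod_nonneg fun τ _ =>
    pow_nonneg (hx.1 τ) _)

lemma inner_le (A : Automaton S) {x : S → ℝ} (hx : x ∈ stdSimplex ℝ S) (m : ℕ) (σ : S) :
    ∑ n ∈ ((univ : Finset S).piAntidiag m).filter (fun n : S → ℕ => A n = σ),
      (Nat.multinomial univ n : ℝ) * ∏ τ, x τ ^ n τ ≤ 1 := by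
  rw [← inner_sum A hx m]
  exact single_le_sum (f := fun σ => ∑ n ∈ ((univ : Finset S).piAntidiag m).filter
    (fun n : S → ℕ => A n = σ), (Nat.multinomial univ n : ℝ) * ∏ τ, x τ ^ n τ)
    (fun σ _ => inner_nonneg A hx m σ) (mem_univ σ)

lemma sum_distMap (A : Automaton S) {χ : ℕ → ℝ} (hχ : IsChildDistribution χ) {x : S → ℝ}
    (hx : x ∈ stdSimplex ℝ S) : ∑ σ, distMap A χ x σ = 1 := by
  unfold distMap
  rw [← Summable.tsum_finsetSum]
  · rw [← hχ.hasSum_one.tsum_eq]
    refine tsum_congr fun m => ?_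
    rw [← mul_sum, inner_sum A hx, mul_one]
  · intro σ _
    refine Summable.of_nonneg_of_le (fun m => mul_nonneg (hχ.nonneg m) (inner_nonneg A hx m σ))
      (fun m => ?_) hχ.hasSum_one.summable
    exact (mul_le_mul_of_nonneg_left (inner_le A hx m σ) (hχ.nonneg m)).trans_eq (mul_one _)

lemma mem_fixedPoints {s : S} {χ : ℕ → ℝ} (hχ : IsChildDistribution χ) {x : S → ℝ}
    (hx : x ∈ stdSimplex ℝ S) (h1 : gen χ (x s) = 1) : x ∈ fixedPoints (aut s) χ := by
  refine ⟨hx, ?_⟩
  have hne : ∀ σ, σ ≠ s → distMap (aut s) χ x σ = x σ := fun σ hσ => by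
    rw [distMap_of_ne hσ, h1, mul_one]
  funext σ
  by_cases hσ : σ = s
  · subst hσ
    have e1 := sum_distMap (aut σ) hχ hx
    have e2 := hx.2
    rw [← add_sum_erase _ _ (mem_univ σ)] at e1 e2
    have e3 : ∑ τ ∈ univ.erase σ, distMap (aut σ) χ x τ = ∑ τ ∈ univ.erase σ, x τ :=
      sum_congr rfl fun τ hτ => hne τ (ne_of_mem_erase hτ)
    linarith
  · exact hne σ hσ

end

lemma summable_aux {χ : ℕ → ℝ} (hχ : IsChildDistribution χ) {r : ℝ} (h0 : 0 ≤ r) (h1 : r < 1) :
    Summable fun m : ℕ => χ m * (m * r ^ (m - 1)) := by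
  have hle : ∀ m, χ m ≤ 1 := fun m => by
    have := hχ.hasSum_one.summable.sum_le_tsum {m} (fun i _ => hχ.nonneg i)
    rwa [sum_singleton, hχ.hasSum_one.tsum_eq] at this
  have hs : Summable fun m : ℕ => ((m : ℝ) * r ^ (m - 1)) := by
    rw [← summable_nat_add_iff 1]
    have a := summable_pow_mul_geometric_of_norm_lt_one 1 (r := r)
      (by rw [Real.norm_of_nonneg h0]; exact h1)
    have b := summable_geometric_of_lt_one h0 h1
    refine (a.add b).congr fun m => ?_
    simp only [Nat.add_sub_cancel]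
    push_cast
    ring
  refine Summable.of_nonneg_of_le (fun m => ?_) (fun m => ?_) hs
  · exact mul_nonneg (hχ.nonneg m) (by positivity)
  · have : 0 ≤ (m : ℝ) * r ^ (m - 1) := by positivity
    nlinarith [hle m]

/-- a child distribution with mean greater than one has `G'(t) = 1` for some `0 < t < 1` -/
lemma exists_gen_eq_one {χ : ℕ → ℝ} (hχ : IsChildDistribution χ)
    (hmean : ∃ N, 1 < ∑ m ∈ range N, (m : ℝ) * χ m) : ∃ t, 0 < t ∧ t < 1 ∧ gen χ t = 1 := by
  obtain ⟨N, hN⟩ := hmean
  -- a point below `1` at which the derivative is larger than `1`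
  obtain ⟨r, hr0, hr1, hr⟩ : ∃ r : ℝ, 0 ≤ r ∧ r < 1 ∧
      1 < ∑ m ∈ range N, χ m * (m * r ^ (m - 1)) := by
    have hc : Continuous fun r : ℝ => ∑ m ∈ range N, χ m * (m * r ^ (m - 1)) := by fun_prop
    have h1 : 1 < ∑ m ∈ range N, χ m * (m * (1 : ℝ) ^ (m - 1)) := by
      refine hN.trans_eq (sum_congr rfl fun m _ => ?_)
      rw [one_pow]; ring
    have hev := hc.continuousAt.eventually (lt_mem_nhds h1)
    rw [Metric.eventually_nhds_iff] at hev
    obtain ⟨ε, hε, h⟩ := hev
    refine ⟨1 - min (ε / 2) (1 / 2), ?_, ?_, ?_⟩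
    · have := min_le_right (ε / 2) (1 / 2 : ℝ); linarith
    · have : 0 < min (ε / 2) (1 / 2 : ℝ) := lt_min (by linarith) (by norm_num)
      linarith
    · apply h
      have h2 : 0 < min (ε / 2) (1 / 2 : ℝ) := lt_min (by linarith) (by norm_num)
      have h3 := min_le_left (ε / 2) (1 / 2 : ℝ)
      rw [Real.dist_eq, abs_lt]
      constructor <;> linarith
  have hgr : 1 < gen χ r := by
    refine hr.trans_le ?_
    exact (summable_aux hχ hr0 hr1).sum_le_tsum _ fun m _ =>
      mul_nonneg (hχ.nonneg m) (by positivity)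
  have hg0 : gen χ 0 < 1 := by
    have e : gen χ 0 = χ 1 := by
      unfold gen
      rw [tsum_eq_single 1]
      · simp
      · intro m hm
        rcases Nat.lt_or_ge m 1 with h | h
        · have : m = 0 := by omega
          subst this; simp
        · have : m - 1 ≠ 0 := by omega
          simp [this]
    rw [e]
    obtain ⟨k, hk, hpos⟩ := hχ.branching
    have := hχ.hasSum_one.summable.sum_le_tsum {1, k} (fun i _ => hχ.nonneg i)
    rw [sum_pair (by omega), hχ.hasSum_one.tsum_eq] at this
    linarith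
  have hcont : ContinuousOn (gen χ) (Set.Icc 0 r) := by
    unfold gen
    refine continuousOn_tsum (fun m => (by fun_prop : Continuous fun t : ℝ =>
      χ m * (m * t ^ (m - 1))).continuousOn) (summable_aux hχ hr0 hr1) ?_
    intro m t ht
    rw [Real.norm_of_nonneg (mul_nonneg (hχ.nonneg m) (mul_nonneg (Nat.cast_nonneg _)
      (pow_nonneg ht.1 _)))]
    exact mul_le_mul_of_nonneg_left (mul_le_mul_of_nonneg_left
      (pow_le_pow_left₀ ht.1 ht.2 _) (Nat.cast_nonneg _)) (hχ.nonneg m)
  obtain ⟨t, ht, hgt⟩ := intermediate_value_Icc hr0 hcont ⟨hg0.le, hgr.le⟩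
  refine ⟨t, lt_of_le_of_ne ht.1 ?_, ht.2.trans_lt hr1, hgt⟩
  rintro rfl
  exact absurd hgt hg0.ne

lemma uncountable_fixedPoints {S : Type} [Fintype S] [DecidableEq S] {s a b : S} (hsa : a ≠ s)
    (hsb : b ≠ s) (hab : a ≠ b) {χ : ℕ → ℝ} (hχ : IsChildDistribution χ)
    (hmean : ∃ N, 1 < ∑ m ∈ range N, (m : ℝ) * χ m) : ¬ (fixedPoints (aut s) χ).Countable := by
  obtain ⟨t, ht0, ht1, hgt⟩ := exists_gen_eq_one hχ hmean
  intro hcount
  -- the segment of fixed points
  let f : ℝ → S → ℝ := fun u τ => if τ = s then t else if τ = a then u else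
    if τ = b then 1 - t - u else 0
  have hf : ∀ u ∈ Set.Ioo 0 (1 - t), f u ∈ fixedPoints (aut s) χ := by
    intro u hu
    apply mem_fixedPoints hχ
    · refine ⟨fun τ => ?_, ?_⟩
      · simp only [f]
        split_ifs
        · exact ht0.le
        · exact hu.1.le
        · have := hu.2; linarith
        · exact le_rfl
      · have e : ∀ τ, f u τ = (if τ = s then t else 0) + (if τ = a then u else 0) +
            (if τ = b then 1 - t - u else 0) := by
          intro τ
          simp only [f]
          by_cases h1 : τ = s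
          · subst h1
            simp [hsa.symm, hsb.symm]
          · by_cases h2 : τ = a
            · subst h2
              simp [h1, hab]
            · simp [h1, h2]
        simp only [e, sum_add_distrib, sum_ite_eq', mem_univ, if_true]
        ring
    · have : f u s = t := by simp [f]
      rw [this, hgt]
  have hinj : Set.InjOn f (Set.Ioo 0 (1 - t)) := by
    intro u _ v _ huv
    have := congrFun huv a
    simpa [f, hsa] using this
  have hI : ¬ (Set.Ioo (0 : ℝ) (1 - t)).Countable := by
    intro h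
    have := Cardinal.mk_Ioo_real (show (0 : ℝ) < 1 - t by linarith)
    have h2 := h.le_aleph0
    rw [this] at h2
    exact absurd h2 (not_le.2 Cardinal.aleph0_lt_continuum)
  exact hI (Set.MapsTo.countable_of_injOn hf hinj hcount)

/-- **Theorem.** (1) For every finite state set `S` with at least three elements there is a tree
automaton `A` on `S` such that for every child distribution `χ` of mean greater than one (possibly
infinite) the distributional map of `(A, χ)` has uncountably many fixed points. (2) In particular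
there are a state set with three elements, an automaton and a child distribution such that the
distributional map has infinitely many fixed points. -/
theorem result :
    (∀ (S : Type) [Fintype S] [DecidableEq S], 3 ≤ Fintype.card S → ∃ A : Automaton S,
      ∀ χ : ℕ → ℝ, IsChildDistribution χ → (∃ N, 1 < ∑ m ∈ range N, (m : ℝ) * χ m) →
        ¬ (fixedPoints A χ).Countable) ∧
    (∃ (A : Automaton (Fin 3)) (χ : ℕ → ℝ), IsChildDistribution χ ∧
      (fixedPoints A χ).Infinite) := by
  refine ⟨?_, ?_⟩
  · intro S _ _ hS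
    obtain ⟨s, a, b, h1, h2, h3⟩ := Fintype.two_lt_card_iff.1 (show 2 < Fintype.card S from hS)
    exact ⟨aut s, fun χ hχ hmean =>
      uncountable_fixedPoints h1.symm h2.symm h3 hχ hmean⟩
  · have hχ : IsChildDistribution (fun m => if m = 2 then 1 else 0) := by
      refine ⟨fun m => ?_, ?_, 2, le_rfl, by simp⟩
      · split_ifs <;> norm_num
      · exact hasSum_ite_eq 2 1
    have hmean : ∃ N, 1 < ∑ m ∈ range N, (m : ℝ) * (if m = 2 then (1 : ℝ) else 0) := by
      refine ⟨3, ?_⟩
      simp
    refine ⟨aut 0, _, hχ, ?_⟩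
    intro hfin
    exact uncountable_fixedPoints (s := (0 : Fin 3)) (a := 1) (b := 2) (by decide) (by decide)
      (by decide) hχ hmean hfin.countable

end Pool.Agent.Results.MP_09543b_pr.ContinuumOfFixedPoints
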